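import Mathlib

set_option autoImplicit false

namespace Pool.Agent.H.MP_daee81_lc

open Filter

def pre (X : ℕ → ℕ) (k : ℕ) : List ℕ := (List.range k).map X

def sh (X : ℕ → ℕ) : ℕ → ℕ := fun n => X (n + 1)

lemma pre_succ (X : ℕ → ℕ) (k : ℕ) : pre X (k + 1) = pre X k ++ [X k] := by
  simp [pre, List.range_succ]

lemma pre_len (X : ℕ → ℕ) (k : ℕ) : (pre X k).length = k := by simp [pre]

lemma pre_eq {X Y : ℕ → ℕ} {k : ℕ} (h : pre X k = pre Y k) : ∀ i < k, X i = Y i := by
  intro i hi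
  have := congrArg (fun l => l.getD i 0) h
  simpa [pre, List.getD_eq_getElem?_getD, hi] using this

def LC {α : Type*} (F : (ℕ → ℕ) → α) : Prop := ∀ X, ∃ k, ∀ Y, (∀ i < k, Y i = X i) → F Y = F X

lemma LC.sh {α : Type*} {F : (ℕ → ℕ) → α} (h : LC F) : LC (fun X => F (sh X)) := by
  intro X
  obtain ⟨k, hk⟩ := h (Pool.Agent.H.MP_daee81_lc.sh X)
  exact ⟨k + 1, fun Y hY => hk _ fun i hi => hY (i + 1) (by omega)⟩

lemma LC.comp₂ {α β γ : Type*} {F : (ℕ → ℕ) → α} {G : (ℕ → ℕ) → β} (h : LC F) (h' : LC G)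
    (φ : α → β → γ) : LC (fun X => φ (F X) (G X)) := by
  intro X
  obtain ⟨k, hk⟩ := h X
  obtain ⟨k', hk'⟩ := h' X
  refine ⟨max k k', fun Y hY => ?_⟩
  simp only
  rw [hk Y fun i hi => hY i (by omega), hk' Y fun i hi => hY i (by omega)]

lemma build (I : List ℕ → Prop) (h0 : I [])
    (h : ∀ t, I t → ∀ᶠ n in (hyperfilter ℕ : Filter ℕ), I (t ++ [n])) :
    ∃ X : ℕ → ℕ, StrictMono X ∧ ∀ k, I (pre X k) := by
  have : ∀ t : List ℕ, ∃ n, t.sum < n ∧ (I t → I (t ++ [n])) := by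
    intro t
    have h1 : ∀ᶠ n in (hyperfilter ℕ : Filter ℕ), t.sum < n :=
      (Nat.hyperfilter_le_atTop) (eventually_gt_atTop _)
    by_cases ht : I t
    · obtain ⟨n, h2, h3⟩ := (h1.and (h t ht)).exists
      exact ⟨n, h2, fun _ => h3⟩
    · exact ⟨t.sum + 1, by omega, fun h => absurd h ht⟩
  choose nx h1 h2 using this
  obtain ⟨L, hL0, hL⟩ : ∃ L : ℕ → List ℕ, L 0 = [] ∧ ∀ k, L (k + 1) = L k ++ [nx (L k)] :=
    ⟨fun k => Nat.rec [] (fun _ t => t ++ [nx t]) k, rfl, fun _ => rfl⟩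
  have hp : ∀ k, pre (fun k => nx (L k)) k = L k := by
    intro k
    induction k with
    | zero => rw [hL0]; rfl
    | succ k ih => rw [pre_succ, ih, hL]
  refine ⟨fun k => nx (L k), strictMono_nat_of_lt_succ fun k => ?_, fun k => ?_⟩
  · have := h1 (L (k + 1))
    rw [hL k, List.sum_append, List.sum_singleton, ← hL k] at this
    omega
  · rw [hp]
    induction k with
    | zero => rw [hL0]; exact h0
    | succ k ih => rw [hL]; exact h2 _ ih

inductive Sec (S : (ℕ → ℕ) → Prop) : List ℕ → Prop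
  | base (t : List ℕ) (h : ∀ X, pre X t.length = t → S X) : Sec S t
  | step (t : List ℕ) (A : Set ℕ) (hA : A ∈ (hyperfilter ℕ : Filter ℕ))
      (h : ∀ n ∈ A, Sec S (t ++ [n])) : Sec S t

lemma Sec.next {S : (ℕ → ℕ) → Prop} {t : List ℕ} (h : Sec S t) :
    ∀ᶠ n in (hyperfilter ℕ : Filter ℕ), Sec S (t ++ [n]) := by
  cases h with
  | base _ h =>
    refine Eventually.of_forall fun n => Sec.base _ fun X hX => h X ?_
    rw [List.length_append, List.length_singleton, pre_succ] at hX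
    exact (List.append_inj' hX rfl).1
  | step _ A hA h => exact mem_of_superset hA h

lemma Sec.nnext {S : (ℕ → ℕ) → Prop} {t : List ℕ} (h : ¬ Sec S t) :
    ∀ᶠ n in (hyperfilter ℕ : Filter ℕ), ¬ Sec S (t ++ [n]) := by
  rw [Ultrafilter.eventually_not]
  exact fun h1 => h (Sec.step t _ h1 fun n hn => hn)

lemma Sec.ex {S : (ℕ → ℕ) → Prop} {t : List ℕ} (h : Sec S t) :
    ∃ X, pre X t.length = t ∧ S X := by
  induction h with
  | base t h =>
    have : pre (fun i => t.getD i 0) t.length = t := by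
      apply List.ext_getElem
      · simp [pre]
      · intro i h1 h2
        simp [pre, List.getD_eq_getElem?_getD, h2]
    exact ⟨_, this, h _ this⟩
  | step t A hA _ ih =>
    obtain ⟨n, hn⟩ := Filter.nonempty_of_mem hA
    obtain ⟨X, hX, h2⟩ := ih n hn
    rw [List.length_append, List.length_singleton, pre_succ] at hX
    exact ⟨X, (List.append_inj' hX rfl).1, h2⟩

lemma drop_pre (X : ℕ → ℕ) (i k : ℕ) : (pre X (i + k)).drop i = pre (sh^[i] X) k := by
  have h1 : ∀ (i : ℕ) (X : ℕ → ℕ) n, (sh^[i] X) n = X (i + n) := by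
    intro i
    induction i with
    | zero => intro X n; simp
    | succ i ih => intro X n; rw [Function.iterate_succ_apply, ih]; simp [sh]; ring_nf
  apply List.ext_getElem
  · simp [pre]
  · intro j h2 h3
    simp [pre, h1]

lemma sec_le {W : Type*} [LinearOrder W] [WellFoundedLT W] (F : (ℕ → ℕ) → W) (hF : LC F) :
    Sec (fun X => F X ≤ F (sh X)) [] := by
  by_contra hc
  obtain ⟨X, -, hX⟩ := build (fun t => ∀ i, ¬ Sec (fun X => F X ≤ F (sh X)) (t.drop i))
    (by simpa using hc) (by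
      intro t ht
      have h1 : ∀ᶠ n in (hyperfilter ℕ : Filter ℕ), ∀ i ∈ Finset.range (t.length + 1),
          ¬ Sec (fun X => F X ≤ F (sh X)) (t.drop i ++ [n]) :=
        (eventually_all_finset _).mpr fun i _ => Sec.nnext (ht i)
      filter_upwards [h1] with n hn i
      by_cases hi : i ≤ t.length
      · rw [List.drop_append_of_le_length hi]
        exact hn i (by simp; omega)
      · rw [List.drop_eq_nil_of_le (by simp; omega)]
        exact hc)
  have h2 : ∀ i, F (sh^[i + 1] X) < F (sh^[i] X) := by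
    intro i
    by_contra h3
    push Not at h3
    rw [Function.iterate_succ_apply'] at h3
    obtain ⟨k, hk⟩ := (hF.comp₂ hF.sh (fun a b => a ≤ b)) (sh^[i] X)
    refine hX (i + k) i ?_
    rw [drop_pre]
    refine Sec.base _ fun Y hY => ?_
    rw [pre_len] at hY
    have := hk Y (pre_eq hY)
    simp only at this
    rw [this]; exact h3
  obtain ⟨_, ⟨i, rfl⟩, h3⟩ := (wellFounded_lt (α := W)).has_min
    (Set.range fun i => F (sh^[i] X)) ⟨_, 0, rfl⟩
  exact h3 _ ⟨i + 1, rfl⟩ (h2 i)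

lemma bqo {W : Type*} [LinearOrder W] [WellFoundedLT W] (N : ℕ) (F : ℕ → (ℕ → ℕ) → W)
    (hF : ∀ j, LC (F j)) : ∃ X, StrictMono X ∧ ∀ j < N, F j X ≤ F j (sh X) := by
  obtain ⟨X, h1, hX⟩ := build (fun t => ∀ j ∈ Finset.range N, Sec (fun X => F j X ≤ F j (sh X)) t)
    (fun j _ => sec_le _ (hF j))
    (fun t ht => (eventually_all_finset _).mpr fun j hj => (ht j hj).next)
  refine ⟨X, h1, fun j hj => ?_⟩
  obtain ⟨k, hk⟩ := ((hF j).comp₂ (hF j).sh (fun a b => a ≤ b)) X
  obtain ⟨Y, hY, h2⟩ := (hX k j (by simpa using hj)).ex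
  rw [pre_len] at hY
  have := hk Y (pre_eq hY)
  simp only at this
  rw [← this]; exact h2

end Pool.Agent.H.MP_daee81_lc
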