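import Pool.Agent.H.MP_daee81_lc.A

set_option autoImplicit false

namespace Pool.Agent.H.MP_daee81_lc

open Set

structure Sq (Q : Type) where
  a : Ordinal.{0}
  b : Ordinal.{0}
  f : Ordinal.{0} → Q

variable {Q : Type} [Preorder Q]

def E (f : Ordinal.{0} → Q) (S : Set Ordinal.{0}) (g : Ordinal.{0} → Q) (T : Set Ordinal.{0}) :
    Prop :=
  ∃ h : Ordinal.{0} → Ordinal.{0}, StrictMonoOn h S ∧ MapsTo h S T ∧ ∀ x ∈ S, f x ≤ g (h x)

lemma E.of_sub {f : Ordinal.{0} → Q} {S T : Set Ordinal.{0}} (h : S ⊆ T) : E f S f T :=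
  ⟨id, strictMonoOn_id, h, fun _ _ => le_rfl⟩

lemma E.trans {f g k : Ordinal.{0} → Q} {S T U : Set Ordinal.{0}} (h : E f S g T)
    (h' : E g T k U) : E f S k U := by
  obtain ⟨p, p1, p2, p3⟩ := h
  obtain ⟨q, q1, q2, q3⟩ := h'
  exact ⟨q ∘ p, q1.comp p1 p2, q2.comp p2, fun x hx => (p3 x hx).trans (q3 _ (p2 hx))⟩

lemma E.empty {f g : Ordinal.{0} → Q} {S T : Set Ordinal.{0}} (h : S = ∅) : E f S g T := by
  subst h
  exact ⟨id, strictMonoOn_id, fun _ h => h.elim, fun _ h => h.elim⟩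

lemma E.glue {f g : Ordinal.{0} → Q} {S T : Set Ordinal.{0}} (idx : Ordinal.{0} → ℕ)
    (hidx : MonotoneOn idx S) (U : ℕ → Set Ordinal.{0})
    (hU : ∀ i j, i < j → ∀ x ∈ U i, ∀ y ∈ U j, x < y) (hT : ∀ i, U i ⊆ T)
    (h : ∀ i, E f {x | x ∈ S ∧ idx x = i} g (U i)) : E f S g T := by
  choose p p1 p2 p3 using h
  refine ⟨fun x => p (idx x) x, ?_, fun x hx => hT _ (p2 _ ⟨hx, rfl⟩), fun x hx => p3 _ x ⟨hx, rfl⟩⟩
  intro x hx y hy hxy
  rcases (hidx hx hy hxy.le).lt_or_eq with h1 | h1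
  · exact hU _ _ h1 _ (p2 _ ⟨hx, rfl⟩) _ (p2 _ ⟨hy, rfl⟩)
  · have := p1 (idx x) ⟨hx, rfl⟩ ⟨hy, h1.symm⟩ hxy
    simp only
    rw [← h1]; exact this

lemma E.cat {f g : Ordinal.{0} → Q} {a m b c m' d : Ordinal.{0}} (h : E f (Ico a m) g (Ico c m'))
    (h' : E f (Ico m b) g (Ico m' d)) (h1 : c ≤ m') (h2 : m' ≤ d) : E f (Ico a b) g (Ico c d) := by
  classical
  obtain ⟨p, p1, p2, p3⟩ := h
  obtain ⟨q, q1, q2, q3⟩ := h'
  refine ⟨fun x => if x < m then p x else q x, ?_, ?_, ?_⟩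
  · intro x hx y hy hxy
    simp only
    by_cases h3 : y < m
    · rw [if_pos h3, if_pos (hxy.trans h3)]
      exact p1 ⟨hx.1, hxy.trans h3⟩ ⟨hy.1, h3⟩ hxy
    · rw [if_neg h3]
      have h5 : y ∈ Ico m b := ⟨not_lt.mp h3, hy.2⟩
      by_cases h4 : x < m
      · rw [if_pos h4]
        exact (p2 ⟨hx.1, h4⟩).2.trans_le (q2 h5).1
      · rw [if_neg h4]
        exact q1 ⟨not_lt.mp h4, hx.2⟩ h5 hxy
  · intro x hx
    simp only
    by_cases h4 : x < m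
    · rw [if_pos h4]
      exact ⟨(p2 ⟨hx.1, h4⟩).1, (p2 ⟨hx.1, h4⟩).2.trans_le h2⟩
    · rw [if_neg h4]
      have h5 := q2 ⟨not_lt.mp h4, hx.2⟩
      exact ⟨h1.trans h5.1, h5.2⟩
  · intro x hx
    simp only
    by_cases h4 : x < m
    · rw [if_pos h4]; exact p3 x ⟨hx.1, h4⟩
    · rw [if_neg h4]; exact q3 x ⟨not_lt.mp h4, hx.2⟩

instance : Preorder (Sq Q) where
  le s t := E s.f (Ico s.a s.b) t.f (Ico t.a t.b)
  le_refl _ := E.of_sub subset_rfl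
  le_trans _ _ _ := E.trans

lemma Sq.le_def {s t : Sq Q} : s ≤ t ↔ E s.f (Ico s.a s.b) t.f (Ico t.a t.b) := Iff.rfl

def Small (f : Ordinal.{0} → Q) (S : Set Ordinal.{0}) (t : Sq Q) : Prop :=
  ∀ ξ, t.a ≤ ξ → ξ < t.b → ∃ d < t.b, E f S t.f (Ico ξ d)

def Let (s : Sq Q) : Prop := s.b = s.a + 1

def Lim (t : Sq Q) : Prop :=
  t.a < t.b ∧ (∀ x < t.b, x + 1 < t.b) ∧ ∀ d < t.b, Small t.f (Ico t.a d) t

def Ind (s : Sq Q) : Prop := Let s ∨ Lim s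

lemma Ind.lt {s : Sq Q} (h : Ind s) : s.a < s.b := by
  rcases h with h | h
  · rw [h]; exact lt_add_one _
  · exact h.1

lemma Small.cat {f : Ordinal.{0} → Q} {a m b : Ordinal.{0}} {t : Sq Q} (h : Small f (Ico a m) t)
    (h' : Small f (Ico m b) t) : Small f (Ico a b) t := by
  intro ξ h1 h2
  obtain ⟨d, hd, e1⟩ := h ξ h1 h2
  obtain ⟨d', hd', e2⟩ := h' (max ξ d) (h1.trans (le_max_left _ _)) (max_lt h2 hd)
  refine ⟨max (max ξ d) d', max_lt (max_lt h2 hd) hd', E.cat (m' := max ξ d)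
    (e1.trans (E.of_sub (Ico_subset_Ico_right (le_max_right _ _))))
    (e2.trans (E.of_sub (Ico_subset_Ico_right (le_max_right _ _)))) (le_max_left _ _)
    (le_max_left _ _)⟩

def Cat (f : Ordinal.{0} → Q) (a : Ordinal.{0}) : Ordinal.{0} → List (Sq Q) → Prop
  | b, [] => b ≤ a
  | b, u :: l => u.f = f ∧ u.b = b ∧ a ≤ u.a ∧ Ind u ∧ Cat f a u.a l

lemma Cat.mem {f : Ordinal.{0} → Q} {a : Ordinal.{0}} {l : List (Sq Q)} :
    ∀ {b : Ordinal.{0}}, Cat f a b l → ∀ u ∈ l, u.f = f ∧ a ≤ u.a ∧ u.b ≤ b ∧ Ind u := by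
  induction l with
  | nil => intro b _ u hu; simp at hu
  | cons v l ih =>
    rintro b ⟨h1, h2, h3, h4, h5⟩ u hu
    rcases List.mem_cons.mp hu with rfl | hu
    · exact ⟨h1, h3, h2.le, h4⟩
    · obtain ⟨k1, k2, k3, k4⟩ := ih h5 u hu
      exact ⟨k1, k2, k3.trans (h4.lt.le.trans h2.le), k4⟩

lemma Cat.small {f : Ordinal.{0} → Q} {a : Ordinal.{0}} {l : List (Sq Q)} {t : Sq Q} :
    ∀ {b : Ordinal.{0}}, Cat f a b l → (∀ u ∈ l, Small f (Ico u.a u.b) t) →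
      Small f (Ico a b) t := by
  induction l with
  | nil => intro b h _ ξ _ h2; exact ⟨ξ, h2, E.empty (Ico_eq_empty_of_le h)⟩
  | cons v l ih =>
    rintro b ⟨-, h2, -, -, h5⟩ h
    have h6 := h v List.mem_cons_self
    rw [h2] at h6
    exact (ih h5 fun u hu => h u (List.mem_cons_of_mem _ hu)).cat h6

lemma Cat.le {f g : Ordinal.{0} → Q} {a c : Ordinal.{0}} {l l' : List (Sq Q)}
    (h : List.SublistForall₂ (· ≤ ·) l l') :
    ∀ {b d : Ordinal.{0}}, Cat f a b l → Cat g c d l' → E f (Ico a b) g (Ico c d) := by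
  induction h with
  | nil => intro b d h _; exact E.empty (Ico_eq_empty_of_le h)
  | @cons u v l l' huv _ ih =>
    rintro b d ⟨h1, h2, -, -, h5⟩ ⟨k1, k2, k3, k4, k5⟩
    rw [Sq.le_def, h1, h2, k1, k2] at huv
    exact (ih h5 k5).cat huv k3 (k4.lt.le.trans k2.le)
  | @cons_right v l l' _ ih =>
    rintro b d h ⟨-, k2, -, k4, k5⟩
    exact (ih h k5).trans (E.of_sub (Ico_subset_Ico_right (k4.lt.le.trans k2.le)))

lemma omega {f : Ordinal.{0} → Q} {a b : Ordinal.{0}} {t : Sq Q} (hc : (Iio b).Countable)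
    (hab : a < b) (hb : ∀ x < b, x + 1 < b) (ht : t.a < t.b) (h : ∀ d < b, Small f (Ico a d) t) :
    E f (Ico a b) t.f (Ico t.a t.b) := by
  classical
  obtain ⟨e, he⟩ := hc.exists_eq_range ⟨a, hab⟩
  have he1 : ∀ n, e n < b := fun n => by
    have : e n ∈ Iio b := he ▸ mem_range_self n
    exact this
  have he2 : ∀ x < b, ∃ n, x ≤ e n := fun x hx => by
    have : x ∈ range e := he ▸ hx
    obtain ⟨n, rfl⟩ := this
    exact ⟨n, le_rfl⟩
  have h1 : ∀ (n : ℕ) ξ, ∃ d, t.a ≤ ξ → ξ < t.b → d < t.b ∧ E f (Ico a (e n + 1)) t.f (Ico ξ d) := by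
    intro n ξ
    by_cases h2 : t.a ≤ ξ ∧ ξ < t.b
    · obtain ⟨d, h3, h4⟩ := h _ (hb _ (he1 n)) ξ h2.1 h2.2
      exact ⟨d, fun _ _ => ⟨h3, h4⟩⟩
    · exact ⟨0, fun h3 h4 => absurd ⟨h3, h4⟩ h2⟩
  choose D hD using h1
  obtain ⟨ξ, hξ0, hξ⟩ : ∃ ξ : ℕ → Ordinal.{0}, ξ 0 = t.a ∧ ∀ n, ξ (n + 1) = max (ξ n) (D n (ξ n)) :=
    ⟨fun n => Nat.rec t.a (fun n x => max x (D n x)) n, rfl, fun _ => rfl⟩
  have hm : Monotone ξ := monotone_nat_of_le_succ fun n => by rw [hξ]; exact le_max_left _ _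
  have ha : ∀ n, t.a ≤ ξ n := fun n => hξ0 ▸ hm (Nat.zero_le n)
  have hb' : ∀ n, ξ n < t.b := by
    intro n
    induction n with
    | zero => rw [hξ0]; exact ht
    | succ n ih => rw [hξ]; exact max_lt ih (hD n _ (ha n) ih).1
  refine E.glue (fun x => if h : ∃ n, x ≤ e n then Nat.find h else 0) ?_
    (fun n => Ico (ξ n) (ξ (n + 1))) ?_ ?_ ?_
  · intro x hx y hy hxy
    simp only
    rw [dif_pos (he2 x hx.2), dif_pos (he2 y hy.2)]
    exact Nat.find_min' _ (hxy.trans (Nat.find_spec (he2 y hy.2)))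
  · intro i j hij x hx y hy
    exact hx.2.trans_le ((hm hij).trans hy.1)
  · intro i
    exact Ico_subset_Ico (ha i) (hb' _).le
  · intro i
    refine (E.of_sub ?_).trans ((hD i _ (ha i) (hb' i)).2.trans (E.of_sub ?_))
    · rintro x ⟨hx, h2⟩
      rw [dif_pos (he2 x hx.2)] at h2
      refine ⟨hx.1, ?_⟩
      have := Nat.find_spec (he2 x hx.2)
      rw [h2] at this
      exact this.trans_lt (lt_add_one _)
    · rw [hξ]; exact Ico_subset_Ico_right (le_max_right _ _)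

def G (Q : Type) [Preorder Q] (b : Ordinal.{0}) : Prop :=
  (Iio b).Countable ∧ ∀ d ≤ b, ∀ (f : Ordinal.{0} → Q) a, ∃ l, Cat f a d l

lemma G.mono {b d : Ordinal.{0}} (h : G Q b) (hd : d ≤ b) : G Q d :=
  ⟨h.1.mono (Iio_subset_Iio hd), fun e he => h.2 e (he.trans hd)⟩

lemma step (s t : Sq Q) : ∃ u : Sq Q, Ind s → (Ind u ∧ u.f = s.f ∧ s.a ≤ u.a ∧ u.b ≤ s.b ∧
    (¬ Let s → u.b < s.b) ∧ (¬ Let s → Lim t → G Q s.b → ¬ s ≤ t →
      ∀ d < t.b, ¬ E u.f (Ico u.a u.b) t.f (Ico t.a d))) := by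
  by_cases h0 : Ind s
  swap
  · exact ⟨s, fun h => absurd h h0⟩
  by_cases h1 : Let s
  · exact ⟨s, fun _ => ⟨h0, rfl, le_rfl, le_rfl, fun h => absurd h1 h, fun h => absurd h1 h⟩⟩
  have h2 : Lim s := h0.resolve_left h1
  by_cases h3 : Lim t ∧ G Q s.b ∧ ¬ s ≤ t
  · obtain ⟨h3, h4, h5⟩ := h3
    by_contra hc
    apply h5
    refine omega h4.1 h2.1 h2.2.1 h3.1 fun d hd => ?_
    obtain ⟨l, hl⟩ := h4.2 d hd.le s.f s.a
    refine hl.small fun u hu => ?_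
    obtain ⟨k1, k2, k3, k4⟩ := hl.mem u hu
    by_contra hn
    refine hc ⟨u, fun _ => ⟨k4, k1, k2, k3.trans hd.le, fun _ => k3.trans_lt hd,
      fun _ _ _ _ e he hE => hn ?_⟩⟩
    intro ξ m1 m2
    obtain ⟨d', m3, m4⟩ := h3.2.2 e he ξ m1 m2
    rw [k1] at hE
    exact ⟨d', m3, hE.trans m4⟩
  · refine ⟨⟨s.a, s.a + 1, s.f⟩, fun _ => ⟨Or.inl rfl, rfl, le_rfl, (h2.2.1 _ h2.1).le,
      fun _ => h2.2.1 _ h2.1, fun _ k1 k2 k3 => absurd ⟨k1, k2, k3⟩ h3⟩⟩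

def HB (Q : Type) [Preorder Q] : Prop :=
  ∀ (F : (ℕ → ℕ) → Q) (K : (ℕ → ℕ) → ℕ), LC F → LC K →
    ∃ X, StrictMono X ∧ K X ≤ K (sh X) ∧ F X ≤ F (sh X)

lemma wqo_ind (H : HB Q) (g : ℕ → Sq Q) (hg : ∀ n, Ind (g n) ∧ G Q (g n).b) :
    ∃ m n, m < n ∧ g m ≤ g n := by
  classical
  by_contra hc
  push Not at hc
  choose σ hσ using (step (Q := Q))
  obtain ⟨A, hA0, hA⟩ : ∃ A : ℕ → (ℕ → ℕ) → Sq Q, (∀ X, A 0 X = g (X 0)) ∧
      ∀ j X, A (j + 1) X = σ (A j X) (A j (sh X)) :=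
    ⟨fun j => Nat.rec (fun X => g (X 0)) (fun _ B X => σ (B X) (B (sh X))) j, fun _ => rfl,
      fun _ _ => rfl⟩
  have hdep : ∀ j X Y, (∀ i < j + 1, Y i = X i) → A j Y = A j X := by
    intro j
    induction j with
    | zero => intro X Y h; rw [hA0, hA0, h 0 (by omega)]
    | succ j ih =>
      intro X Y h
      rw [hA, hA, ih X Y fun i hi => h i (by omega),
        ih (sh X) (sh Y) fun i hi => h (i + 1) (by omega)]
  have hI : ∀ j X, Ind (A j X) ∧ G Q (A j X).b := by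
    intro j
    induction j with
    | zero => intro X; rw [hA0]; exact hg _
    | succ j ih =>
      intro X
      rw [hA]
      have := hσ _ (A j (sh X)) (ih X).1
      exact ⟨this.1, (ih X).2.mono this.2.2.2.1⟩
  have hS : ∀ j X, (A (j + 1) X).f = (A j X).f ∧ (A j X).a ≤ (A (j + 1) X).a ∧
      (A (j + 1) X).b ≤ (A j X).b ∧ (¬ Let (A j X) → (A (j + 1) X).b < (A j X).b) := by
    intro j X
    rw [hA]
    have := hσ _ (A j (sh X)) (hI j X).1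
    exact ⟨this.2.1, this.2.2.1, this.2.2.2.1, this.2.2.2.2.1⟩
  have hL : ∀ X, ∃ j, Let (A j X) := by
    intro X
    by_contra h
    push Not at h
    obtain ⟨_, ⟨i, rfl⟩, h3⟩ := (wellFounded_lt (α := Ordinal.{0})).has_min
      (Set.range fun i => (A i X).b) ⟨_, 0, rfl⟩
    exact h3 _ ⟨i + 1, rfl⟩ ((hS i X).2.2.2 (h i))
  have hK : ∀ X Y, (∀ i < Nat.find (hL X) + 1, Y i = X i) → Nat.find (hL Y) = Nat.find (hL X) := by
    intro X Y h
    rw [Nat.find_eq_iff]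
    refine ⟨?_, fun n hn => ?_⟩
    · rw [hdep _ X Y h]; exact Nat.find_spec (hL X)
    · rw [hdep _ X Y fun i hi => h i (by omega)]; exact Nat.find_min (hL X) hn
  obtain ⟨X, hX, h1, h2⟩ := H (fun X => (A (Nat.find (hL X)) X).f (A (Nat.find (hL X)) X).a)
    (fun X => Nat.find (hL X))
    (fun X => ⟨Nat.find (hL X) + 1, fun Y hY => by
      simp only
      rw [hK X Y hY, hdep _ X Y hY]⟩)
    (fun X => ⟨Nat.find (hL X) + 1, fun Y hY => hK X Y hY⟩)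
  have hmono : ∀ Y j k, j ≤ k → (A k Y).f = (A j Y).f ∧ (A j Y).a ≤ (A k Y).a ∧
      (A k Y).b ≤ (A j Y).b := by
    intro Y j k hjk
    induction k, hjk using Nat.le_induction with
    | base => exact ⟨rfl, le_rfl, le_rfl⟩
    | succ k _ ih =>
      have := hS k Y
      exact ⟨this.1.trans ih.1, ih.2.1.trans this.2.1, this.2.2.1.trans ih.2.2⟩
  have hinv : ∀ j ≤ Nat.find (hL X), ¬ A j X ≤ A j (sh X) := by
    intro j
    induction j with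
    | zero =>
      intro _
      rw [hA0, hA0]
      exact hc _ _ (hX (show 0 < 0 + 1 by omega))
    | succ j ih =>
      intro hj hle
      have k1 : ¬ Let (A j X) := Nat.find_min (hL X) (by omega)
      have k2 : ¬ Let (A j (sh X)) := Nat.find_min (hL (sh X)) (by omega)
      have k3 := (hσ _ (A j (sh X)) (hI j X).1).2.2.2.2.2 k1 ((hI j _).1.resolve_left k2)
        (hI j X).2 (ih (by omega)) _ ((hS j (sh X)).2.2.2 k2)
      rw [← hA] at k3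
      apply k3
      rw [Sq.le_def, (hS j (sh X)).1] at hle
      exact hle.trans (E.of_sub (Ico_subset_Ico_left (hS j (sh X)).2.1))
  apply hinv _ le_rfl
  obtain ⟨m1, m2, m3⟩ := hmono (sh X) _ _ h1
  have m4 : Let (A (Nat.find (hL X)) X) := Nat.find_spec (hL X)
  have m5 : ∀ x ∈ Ico (A (Nat.find (hL X)) X).a (A (Nat.find (hL X)) X).b,
      x = (A (Nat.find (hL X)) X).a := by
    intro x hx
    rw [m4] at hx
    exact le_antisymm (Order.lt_add_one_iff.mp hx.2) hx.1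
  refine ⟨fun _ => (A (Nat.find (hL (sh X))) (sh X)).a, ?_, ?_, ?_⟩
  · intro x hx y hy hxy
    rw [m5 x hx, m5 y hy] at hxy
    exact absurd hxy (lt_irrefl _)
  · intro x _
    exact ⟨m2, (hI _ _).1.lt.trans_le m3⟩
  · intro x hx
    rw [m5 x hx, ← m1]
    exact h2

lemma wqo_all (H : HB Q) (g : ℕ → Sq Q) (hg : ∀ n, G Q (g n).b) :
    ∃ m n, m < n ∧ g m ≤ g n := by
  have h1 : {s : Sq Q | Ind s ∧ G Q s.b}.PartiallyWellOrderedOn (· ≤ ·) :=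
    partiallyWellOrderedOn_iff_exists_lt.mpr fun g hg => wqo_ind H g hg
  choose l hl using fun n => (hg n).2 _ le_rfl (g n).f (g n).a
  obtain ⟨m, n, h2, h3⟩ := (h1.partiallyWellOrderedOn_sublistForall₂ (· ≤ ·)).exists_lt (f := l)
    fun n u hu => ⟨((hl n).mem u hu).2.2.2, (hg n).mono ((hl n).mem u hu).2.2.1⟩
  exact ⟨m, n, h2, Cat.le h3 (hl m) (hl n)⟩

lemma dec (H : HB Q) (b : Ordinal.{0}) : (Iio b).Countable → G Q b := by
  induction b using WellFoundedLT.induction with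
  | ind b ih =>
  intro hc
  have ih' : ∀ d < b, G Q d := fun d hd => ih d hd (hc.mono (Iio_subset_Iio hd.le))
  refine ⟨hc, fun d hd => ?_⟩
  rcases hd.lt_or_eq with hd | rfl
  · exact (ih' d hd).2 d le_rfl
  intro f a
  by_cases h1 : d ≤ a
  · exact ⟨[], h1⟩
  push Not at h1
  suffices h : ∃ m, a ≤ m ∧ Ind ⟨m, d, f⟩ by
    obtain ⟨m, h2, h3⟩ := h
    obtain ⟨l, hl⟩ := (ih' m h3.lt).2 m le_rfl f a
    exact ⟨⟨m, d, f⟩ :: l, rfl, rfl, h2, h3, hl⟩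
  by_cases h2 : ∀ x < d, x + 1 < d
  swap
  · push Not at h2
    obtain ⟨x, h2, h3⟩ := h2
    exact ⟨x, Order.lt_add_one_iff.mp (h1.trans_le h3),
      Or.inl (le_antisymm h3 (Order.add_one_le_of_lt h2))⟩
  by_contra hn
  have h3 : ∀ m, ∃ ξ e, a ≤ m → m < d → m ≤ ξ ∧ ξ < d ∧ e < d ∧
      ∀ e' < d, ¬ E f (Ico m e) f (Ico ξ e') := by
    intro m
    by_cases h4 : a ≤ m ∧ m < d
    swap
    · exact ⟨0, 0, fun k1 k2 => absurd ⟨k1, k2⟩ h4⟩
    by_contra h5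
    refine hn ⟨m, h4.1, Or.inr ⟨h4.2, h2, fun e he ξ k1 k2 => ?_⟩⟩
    by_contra h6
    exact h5 ⟨ξ, e, fun _ _ => ⟨k1, k2, he, fun e' he' h7 => h6 ⟨e', he', h7⟩⟩⟩
  choose nx e h3 using h3
  obtain ⟨ξ, hξ0, hξ⟩ : ∃ ξ : ℕ → Ordinal.{0}, ξ 0 = a ∧ ∀ n, ξ (n + 1) = nx (ξ n) :=
    ⟨fun n => Nat.rec a (fun _ x => nx x) n, rfl, fun _ => rfl⟩
  have h4 : ∀ n, a ≤ ξ n ∧ ξ n < d := by
    intro n
    induction n with
    | zero => rw [hξ0]; exact ⟨le_rfl, h1⟩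
    | succ n ih =>
      rw [hξ]
      have := h3 _ ih.1 ih.2
      exact ⟨ih.1.trans this.1, this.2.1⟩
  have hm : Monotone ξ := monotone_nat_of_le_succ fun n => by
    rw [hξ]; exact (h3 _ (h4 n).1 (h4 n).2).1
  obtain ⟨m, n, h5, h6⟩ := wqo_all H (fun n => ⟨ξ n, e (ξ n), f⟩)
    fun n => ih' _ (h3 _ (h4 n).1 (h4 n).2).2.2.1
  refine (h3 _ (h4 m).1 (h4 m).2).2.2.2 _ (h3 _ (h4 n).1 (h4 n).2).2.2.1
    (E.trans h6 (E.of_sub (Ico_subset_Ico_left ?_)))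
  rw [← hξ]
  exact hm h5

lemma seqs (H : HB Q) (o : ℕ → Ordinal.{0}) (f : ∀ n, Set.Iio (o n) → Q)
    (hc : ∀ n, Countable (Set.Iio (o n))) :
    ∃ m n, m < n ∧ ∃ h : Set.Iio (o m) → Set.Iio (o n), StrictMono h ∧ ∀ x, f m x ≤ f n (h x) := by
  classical
  rcases isEmpty_or_nonempty Q with hQ | ⟨⟨q⟩⟩
  · exact ⟨0, 1, by omega, fun x => hQ.elim (f 0 x), fun x => hQ.elim (f 0 x),
      fun x => hQ.elim (f 0 x)⟩
  obtain ⟨m, n, h1, h, h2, h3, h4⟩ := wqo_all H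
    (fun n => ⟨0, o n, fun x => if h : x < o n then f n ⟨x, h⟩ else q⟩)
    fun n => dec H _ (countable_coe_iff.mp (hc n))
  have h5 : ∀ x : Iio (o m), x.1 ∈ Ico 0 (o m) := fun x => ⟨bot_le (a := x.1), x.2⟩
  refine ⟨m, n, h1, fun x => ⟨h x, (h3 (h5 x)).2⟩, fun x y hxy => h2 (h5 x) (h5 y) hxy,
    fun x => ?_⟩
  have := h4 x (h5 x)
  simp only at this
  rw [dif_pos (show x.1 < o m from x.2), dif_pos (show h x < o n from (h3 (h5 x)).2)] at this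
  exact this

lemma hb_of (N : ℕ) (c : Q → ℕ → Ordinal.{0}) (h : ∀ x y, (∀ j < N, c x j ≤ c y j) → x ≤ y) :
    HB Q := by
  intro F K hF hK
  obtain ⟨X, h1, h2⟩ := bqo (N + 1) (fun j X => if j < N then c (F X) j else (K X : Ordinal.{0}))
    fun j => hF.comp₂ hK (fun a b => if j < N then c a j else (b : Ordinal.{0}))
  refine ⟨X, h1, ?_, h _ _ fun j hj => ?_⟩
  · have := h2 N (by omega)
    simp only [lt_irrefl, if_false] at this
    exact_mod_cast this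
  · have := h2 j (by omega)
    simpa only [hj, if_true] using this

end Pool.Agent.H.MP_daee81_lc
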