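import Mathlib

set_option autoImplicit false

namespace Pool.Agent.H.MP_daee81_lc

open Set Cardinal

section abs

variable {Q : Type} (φ : List Q → ℕ × ℕ → Q)

def Cl (M : Set Q) : Prop := ∀ l : List Q, (∀ a ∈ l, a ∈ M) → ∀ k, φ l k ∈ M

lemma list_chain {ι : Type} [LinearOrder ι] (M : ι → Set Q) (hM : Monotone M) (p : ι → Prop)
    (i0 : ι) (h0 : p i0) (l : List Q) (h : ∀ a ∈ l, ∃ i, p i ∧ a ∈ M i) :
    ∃ i, p i ∧ ∀ a ∈ l, a ∈ M i := by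
  induction l with
  | nil => exact ⟨i0, h0, by simp⟩
  | cons a l ih =>
    obtain ⟨i, h1, h2⟩ := ih fun b hb => h b (List.mem_cons_of_mem _ hb)
    obtain ⟨j, h3, h4⟩ := h a List.mem_cons_self
    refine ⟨max i j, by rcases max_choice i j with h5 | h5 <;> rw [h5] <;> assumption, ?_⟩
    intro b hb
    rcases List.mem_cons.mp hb with rfl | hb
    · exact hM (le_max_right _ _) h4
    · exact hM (le_max_left _ _) (h2 b hb)

lemma exists_cl (S : Set Q) : ∃ M, S ⊆ M ∧ Cl φ M ∧ #M ≤ max #S ℵ₀ := by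
  obtain ⟨C, hC0, hC⟩ : ∃ C : ℕ → Set Q, C 0 = S ∧ ∀ n, C (n + 1) =
      C n ∪ range (fun p : List (C n) × (ℕ × ℕ) => φ (p.1.map Subtype.val) p.2) :=
    ⟨fun n => Nat.rec S (fun _ A => A ∪
      range (fun p : List A × (ℕ × ℕ) => φ (p.1.map Subtype.val) p.2)) n, rfl, fun _ => rfl⟩
  have hm : Monotone C := monotone_nat_of_le_succ fun n => by rw [hC]; exact subset_union_left
  have hk : ℵ₀ ≤ max #S ℵ₀ := le_max_right _ _
  have hc : ∀ n, #(C n) ≤ max #S ℵ₀ := by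
    intro n
    induction n with
    | zero => rw [hC0]; exact le_max_left _ _
    | succ n ih =>
      rw [hC]
      refine (mk_union_le _ _).trans (add_le_of_le hk ih (mk_range_le.trans ?_))
      rw [mk_prod, lift_id, lift_id]
      refine mul_le_of_le hk ((mk_list_le_max _).trans (max_le hk ih)) (mk_le_aleph0.trans hk)
  refine ⟨⋃ n, C n, hC0 ▸ subset_iUnion C 0, ?_, ?_⟩
  · intro l hl k
    obtain ⟨n, -, hn⟩ := list_chain C hm (fun _ => True) 0 trivial l fun a ha => by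
      obtain ⟨i, hi⟩ := mem_iUnion.mp (hl a ha)
      exact ⟨i, trivial, hi⟩
    refine mem_iUnion.mpr ⟨n + 1, ?_⟩
    rw [hC]
    exact Or.inr ⟨(l.attachWith _ hn, k), by simp⟩
  · refine (mk_iUnion_le _).trans (mul_le_of_le hk (mk_le_aleph0.trans hk) (ciSup_le' hc))

def cl (S : Set Q) : Set Q := ⋂₀ {M | S ⊆ M ∧ Cl φ M}

lemma sub_cl (S : Set Q) : S ⊆ cl φ S := fun _ hx _ hM => hM.1 hx

lemma cl_cl (S : Set Q) : Cl φ (cl φ S) := fun l hl k M hM => hM.2 l (fun a ha => hl a ha M hM) k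

lemma cl_mono {S T : Set Q} (h : S ⊆ T) : cl φ S ⊆ cl φ T :=
  fun _ hx M hM => hx M ⟨h.trans hM.1, hM.2⟩

lemma card_cl (S : Set Q) : #(cl φ S) ≤ max #S ℵ₀ := by
  obtain ⟨M, h1, h2, h3⟩ := exists_cl φ S
  have h4 : cl φ S ⊆ M := fun x hx => hx M ⟨h1, h2⟩
  exact (mk_le_mk_of_subset h4).trans h3

theorem code (le mem : Q → Q → Prop) (hr : ∀ x, le x x)
    (m1 : ∀ x D D', mem x D → le D D' → mem x D')
    (m2 : ∀ M, Cl φ M → ∀ x, ∃ D ∈ M, mem x D ∧ ∀ z ∈ M, mem z D → le z x) (κ : Cardinal.{0}) :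
    ∀ S : Set Q, #S = κ → ∃ (n : Q → ℕ) (c : Q → ℕ → Ordinal.{0}), ∀ x ∈ S, ∀ y ∈ S,
      n x = n y → (∀ j < n x, c x j ≤ c y j) → le x y := by
  classical
  induction κ using WellFoundedLT.induction with
  | ind κ ih =>
  intro S hS
  by_cases hκ : κ ≤ ℵ₀
  · have hSc : S.Countable := le_aleph0_iff_set_countable.mp (hS ▸ hκ)
    obtain ⟨n, hn⟩ := Set.countable_iff_exists_injOn.mp hSc
    exact ⟨n, fun _ _ => 0, fun x hx y hy h _ => hn hx hy h ▸ hr x⟩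
  push Not at hκ
  obtain ⟨e⟩ : Nonempty (κ.ord.ToType ≃ S) := Cardinal.eq.mp (by rw [mk_ord_toType, hS])
  obtain ⟨M, hM⟩ : ∃ M : κ.ord.ToType → Set Q, ∀ w, M w = cl φ ((fun v => (e v).1) '' Iic w) :=
    ⟨_, fun _ => rfl⟩
  have hm : Monotone M := fun v w h => by
    rw [hM, hM]; exact cl_mono φ (image_mono (Iic_subset_Iic.mpr h))
  have hlt : ∀ w, #(M w) < κ := by
    intro w
    rw [hM]
    refine (card_cl φ _).trans_lt (max_lt (mk_image_le.trans_lt ?_) hκ)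
    rw [← Iio_insert]
    exact mk_insert_le.trans_lt (add_lt_of_lt hκ.le (mk_Iio_toType_ord_lt w)
      (one_lt_aleph0.trans hκ))
  choose n₁ c₁ h₁ using fun w => ih _ (hlt w) (M w) rfl
  have hne : Nonempty κ.ord.ToType := by
    rw [← mk_ne_zero_iff, mk_ord_toType]
    exact (aleph0_pos.trans hκ).ne'
  have hr' : ∀ z, ∃ w, (∃ v, z ∈ M v) → z ∈ M w ∧ ∀ v, z ∈ M v → w ≤ v := by
    intro z
    by_cases h : ∃ v, z ∈ M v
    · obtain ⟨w, h1, h2⟩ := (wellFounded_lt (α := κ.ord.ToType)).has_min {v | z ∈ M v} h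
      exact ⟨w, fun _ => ⟨h1, fun v hv => not_lt.mp (h2 v hv)⟩⟩
    · exact ⟨Classical.choice hne, fun h' => absurd h' h⟩
  choose r hr' using hr'
  have hD : ∀ x, ∃ D, (∃ w, w < r x) → (∃ w, w < r x ∧ D ∈ M w) ∧ mem x D ∧
      ∀ z, (∃ w, w < r x ∧ z ∈ M w) → mem z D → le z x := by
    intro x
    by_cases h : ∃ w, w < r x
    swap
    · exact ⟨x, fun h' => absurd h' h⟩
    obtain ⟨w0, h0⟩ := h
    obtain ⟨D, h1, h2, h3⟩ := m2 {z | ∃ w, w < r x ∧ z ∈ M w} (by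
      intro l hl k
      obtain ⟨w, h1, h2⟩ := list_chain M hm (fun w => w < r x) w0 h0 l hl
      refine ⟨w, h1, ?_⟩
      rw [hM] at h2 ⊢
      exact cl_cl φ _ l h2 k) x
    exact ⟨D, fun _ => ⟨h1, h2, h3⟩⟩
  choose D hD using hD
  have hDr : ∀ x, (∃ w, w < r x) → r (D x) < r x := by
    intro x h
    obtain ⟨w, h1, h2⟩ := (hD x h).1
    exact ((hr' _ ⟨w, h2⟩).2 w h2).trans_lt h1
  obtain ⟨v, hv⟩ : ∃ v : κ.ord.ToType → Ordinal.{0}, ∀ a b, v a ≤ v b → a ≤ b :=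
    ⟨fun w => Ordinal.typein (α := κ.ord.ToType) (· < ·) w, fun a b h =>
      not_lt.mp ((Ordinal.typein_le_typein _).mp h)⟩
  obtain ⟨Φ, hΦ⟩ : ∃ Φ : Q → ℕ → (ℕ → Ordinal.{0}) → ℕ × (ℕ → Ordinal.{0}), ∀ x m c', Φ x m c' =
      (2 * Nat.pair (n₁ (r x) x) m + 3, fun j => if j = 0 then v (r x) else
        if j % 2 = 1 then c₁ (r x) x (j / 2) else c' (j / 2 - 1)) := ⟨_, fun _ _ _ => rfl⟩
  obtain ⟨cd, hcd⟩ : ∃ cd : Q → ℕ × (ℕ → Ordinal.{0}), ∀ x, cd x =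
      if ∃ w, w < r x then Φ x ((cd (D x)).1 + 1) (cd (D x)).2 else Φ x 0 (fun _ => 0) := by
    refine ⟨WellFounded.fix (InvImage.wf r wellFounded_lt) (fun x rec =>
      if h : ∃ w, w < r x then Φ x ((rec (D x) (hDr x h)).1 + 1) (rec (D x) (hDr x h)).2
      else Φ x 0 (fun _ => 0)), fun x => ?_⟩
    rw [WellFounded.fix_eq]
    split_ifs <;> rfl
  have e1 : ∀ x, (cd x).1 =
      2 * Nat.pair (n₁ (r x) x) (if ∃ w, w < r x then (cd (D x)).1 + 1 else 0) + 3 := by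
    intro x
    rw [hcd x]
    split_ifs <;> rw [hΦ]
  have e2 : ∀ x, (cd x).2 0 = v (r x) := by
    intro x
    rw [hcd x]
    split_ifs <;> rw [hΦ] <;> simp
  have e3 : ∀ x j, (cd x).2 (2 * j + 1) = c₁ (r x) x j := by
    intro x j
    have k1 : (2 * j + 1) % 2 = 1 := by omega
    have k2 : (2 * j + 1) / 2 = j := by omega
    rw [hcd x]
    split_ifs <;> rw [hΦ] <;> simp [k1, k2]
  have e4 : ∀ x j, (∃ w, w < r x) → (cd x).2 (2 * j + 2) = (cd (D x)).2 j := by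
    intro x j h
    have k1 : (2 * j + 2) % 2 = 0 := by omega
    have k2 : (2 * j + 2) / 2 - 1 = j := by omega
    rw [hcd x, if_pos h, hΦ]
    simp only [k1, k2]
    simp
  have main : ∀ w y, r y = w → (∃ v, y ∈ M v) → ∀ x, (∃ v, x ∈ M v) → (cd x).1 = (cd y).1 →
      (∀ j < (cd x).1, (cd x).2 j ≤ (cd y).2 j) → le x y := by
    intro w
    induction w using WellFoundedLT.induction with
    | ind w ihw =>
    rintro y rfl hy x hx h1 h2
    have h3 := h1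
    rw [e1 x, e1 y] at h3
    have h4 : Nat.pair (n₁ (r x) x) (if ∃ w, w < r x then (cd (D x)).1 + 1 else 0) =
        Nat.pair (n₁ (r y) y) (if ∃ w, w < r y then (cd (D y)).1 + 1 else 0) := by omega
    obtain ⟨h5, h6⟩ := Nat.pair_eq_pair.mp h4
    have h7 : r x ≤ r y := by
      apply hv
      rw [← e2, ← e2]
      exact h2 0 (by rw [e1]; omega)
    rcases h7.lt_or_eq with h7 | h7
    · have k1 : ∃ w, w < r y := ⟨_, h7⟩
      rw [if_pos k1] at h6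
      have k2 : ∃ w, w < r x := by
        by_contra k2
        rw [if_neg k2] at h6
        omega
      rw [if_pos k2] at h6
      have k3 : ∀ z, (∃ w, w < r z) → ∃ v, D z ∈ M v := fun z hz => by
        obtain ⟨w, -, k⟩ := (hD z hz).1
        exact ⟨w, k⟩
      have k4 := ihw _ (hDr y k1) (D y) rfl (k3 y k1) (D x) (k3 x k2) (by omega) fun j hj => by
        rw [← e4 x j k2, ← e4 y j k1]
        apply h2
        rw [e1 x, if_pos k2]
        have := Nat.right_le_pair (n₁ (r x) x) ((cd (D x)).1 + 1)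
        omega
      exact (hD y k1).2.2 x ⟨_, h7, (hr' x hx).1⟩ (m1 _ _ _ (hD x k2).2.1 k4)
    · refine h₁ (r x) x (hr' x hx).1 y (h7 ▸ (hr' y hy).1) (by rw [h5, h7]) fun j hj => ?_
      have k1 := h2 (2 * j + 1) (by
        rw [e1 x]
        have := Nat.left_le_pair (n₁ (r x) x) (if ∃ w, w < r x then (cd (D x)).1 + 1 else 0)
        omega)
      rw [e3, e3, ← h7] at k1
      exact k1
  have hT : ∀ x ∈ S, ∃ v, x ∈ M v := fun x hx => ⟨e.symm ⟨x, hx⟩, by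
    rw [hM]
    exact sub_cl φ _ ⟨_, mem_Iic.mpr le_rfl, by simp⟩⟩
  exact ⟨fun x => (cd x).1, fun x => (cd x).2, fun x hx y hy h1 h2 =>
    main _ y rfl (hT y hy) x (hT x hx) h1 h2⟩

end abs

structure PO where
  T : Type
  inst : Preorder T

instance (A : PO) : Preorder A.T := A.inst

def SD {T : Type} [Preorder T] (D : Set T) : Prop :=
  ∀ w : ℕ → T, (∀ n, w n ∈ D) → ∃ a ∈ D, ∀ n, w n ≤ a

def nxt (A : PO) : PO := ⟨{D : Set A.T // IsLowerSet D ∧ SD D}, inferInstance⟩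

def Wq (T : Type) [Preorder T] : Prop := ∀ g : ℕ → T, ∃ m n, m < n ∧ g m ≤ g n

lemma Wq.nxt {A : PO} (h : Wq A.T) : Wq (nxt A).T := by
  intro g
  by_contra hc
  push Not at hc
  have h1 : ∀ m, ∃ x ∈ (g m).1, ∀ n, m < n → x ∉ (g n).1 := by
    intro m
    have h2 : ∀ n : ℕ, ∃ x ∈ (g m).1, x ∉ (g (m + 1 + n)).1 := fun n =>
      not_subset.mp (hc m (m + 1 + n) (by omega))
    choose w h3 h4 using h2
    obtain ⟨a, h5, h6⟩ := (g m).2.2 w h3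
    refine ⟨a, h5, fun n hn h7 => h4 (n - (m + 1)) ?_⟩
    rw [show m + 1 + (n - (m + 1)) = n by omega]
    exact (g n).2.1 (h6 _) h7
  choose x h2 h3 using h1
  obtain ⟨m, n, h4, h5⟩ := h x
  exact h3 m n h4 ((g n).2.1 h5 (h2 n))

lemma Wq.gen {T : Type} [Preorder T] (h : Wq T) (U : Set T) :
    ∃ l : List T, (∀ b ∈ l, b ∈ U) ∧ ∀ z ∈ U, ∃ b ∈ l, b ≤ z := by
  by_contra hc
  push Not at hc
  obtain ⟨f, -, h2⟩ := exists_seq_of_forall_finset_exists (fun x => x ∈ U) (fun a b => ¬ a ≤ b)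
    fun s hs => by
      obtain ⟨z, h1, h2⟩ := hc s.toList fun b hb => hs b (Finset.mem_toList.mp hb)
      exact ⟨z, h1, fun x hx => h2 x (Finset.mem_toList.mpr hx)⟩
  obtain ⟨m, n, h3, h4⟩ := h f
  exact h2 m n h3 h4

def Lv (A : PO) : ℕ → PO
  | 0 => A
  | i + 1 => nxt (Lv A i)

lemma Wq.lv {A : PO} (h : Wq A.T) : ∀ i, Wq (Lv A i).T
  | 0 => h
  | i + 1 => (Wq.lv h i).nxt

theorem code' (A : PO) (h : Wq A.T) : ∃ (n : A.T → ℕ) (c : A.T → ℕ → Ordinal.{0}),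
    ∀ x y, n x = n y → (∀ j < n x, c x j ≤ c y j) → x ≤ y := by
  classical
  obtain ⟨D, hD⟩ : ∃ D : List (Σ i, (Lv A i).T) → ∀ i, Set (Lv A i).T,
      ∀ l i, D l i = {a | ∀ b, (⟨i, b⟩ : Σ i, (Lv A i).T) ∈ l → ¬ b ≤ a} := ⟨_, fun _ _ => rfl⟩
  have hl : ∀ l i, IsLowerSet (D l i) := by
    intro l i a b hab ha
    rw [hD] at ha ⊢
    exact fun c hc h1 => ha c hc (h1.trans hab)
  have h1 : ∀ l i, ∃ ψ : ℕ → (Σ i, (Lv A i).T),
      (∃ hs : SD (D l i), ψ 0 = ⟨i + 1, ⟨D l i, hl l i, hs⟩⟩) ∨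
      ∃ w : ℕ → (Lv A i).T, (∀ n, w n ∈ D l i) ∧ (∀ a ∈ D l i, ∃ n, ¬ w n ≤ a) ∧
        ∀ n, ψ n = ⟨i, w n⟩ := by
    intro l i
    by_cases hs : SD (D l i)
    · exact ⟨fun _ => ⟨i + 1, ⟨D l i, hl l i, hs⟩⟩, Or.inl ⟨hs, rfl⟩⟩
    · unfold SD at hs
      push Not at hs
      obtain ⟨w, h1, h2⟩ := hs
      exact ⟨fun n => ⟨i, w n⟩, Or.inr ⟨w, h1, h2, fun _ => rfl⟩⟩
  choose ψ hψ using h1
  obtain ⟨n, c, hc⟩ := code (Q := Σ i, (Lv A i).T) (fun l k => ψ l k.1 k.2)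
    (fun x y => ∃ (i : ℕ) (a b : (Lv A i).T), x = ⟨i, a⟩ ∧ y = ⟨i, b⟩ ∧ a ≤ b)
    (fun x E => ∃ (i : ℕ) (a : (Lv A i).T) (b : (Lv A (i + 1)).T),
      x = ⟨i, a⟩ ∧ E = ⟨i + 1, b⟩ ∧ a ∈ b.1)
    (fun x => ⟨x.1, x.2, x.2, rfl, rfl, le_rfl⟩)
    (by
      rintro _ _ _ ⟨i, a, b, rfl, rfl, h1⟩ ⟨j, c, d, h2, rfl, h3⟩
      cases h2
      exact ⟨i, a, d, rfl, rfl, h3 h1⟩)
    (by
      rintro M hM ⟨i, a⟩
      obtain ⟨l0, k1, k2⟩ := (h.lv i).gen {z | (⟨i, z⟩ : Σ i, (Lv A i).T) ∈ M ∧ ¬ z ≤ a}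
      have k3 : ∀ b, (⟨i, b⟩ : Σ i, (Lv A i).T) ∈ l0.map (Sigma.mk i) ↔ b ∈ l0 := fun b =>
        List.mem_map_of_injective sigma_mk_injective
      have k4 : ∀ x ∈ l0.map (Sigma.mk i), x ∈ M := by
        intro x hx
        obtain ⟨b, hb, rfl⟩ := List.mem_map.mp hx
        exact (k1 b hb).1
      have k5 : a ∈ D (l0.map (Sigma.mk i)) i := by
        rw [hD]
        exact fun b hb => (k1 b ((k3 b).mp hb)).2
      have k6 : ∀ z, (⟨i, z⟩ : Σ i, (Lv A i).T) ∈ M → z ∈ D (l0.map (Sigma.mk i)) i → z ≤ a := by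
        intro z h1 h2
        by_contra h3
        obtain ⟨b, h4, h5⟩ := k2 z ⟨h1, h3⟩
        rw [hD] at h2
        exact h2 b ((k3 b).mpr h4) h5
      rcases hψ (l0.map (Sigma.mk i)) i with ⟨hs, h1⟩ | ⟨w, h1, h2, h3⟩
      · refine ⟨_, hM _ k4 (i, 0), ⟨i, a, _, rfl, h1, k5⟩, ?_⟩
        rintro _ hz ⟨j, z, b, rfl, h2, h3⟩
        simp only at h2
        rw [h1] at h2
        cases h2
        exact ⟨_, z, a, rfl, rfl, k6 z hz h3⟩
      · obtain ⟨n, hn⟩ := h2 a k5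
        refine absurd (k6 _ ?_ (h1 n)) hn
        rw [← h3]
        exact hM _ k4 (i, n)) _ univ rfl
  refine ⟨fun x => n ⟨0, x⟩, fun x => c ⟨0, x⟩, fun x y h1 h2 => ?_⟩
  obtain ⟨i, a, b, h3, h4, h5⟩ := hc _ (mem_univ _) _ (mem_univ _) h1 h2
  cases h3
  cases h4
  exact h5

end Pool.Agent.H.MP_daee81_lc
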